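import Mathlib
import Pool.Agent.MP_35c637_nt.os.Top

set_option autoImplicit false

namespace Pool.Agent.Results.MP_35c637_nt.OddShift

/-- There is `η > 0` such that for every multiplicative `f` with `f p = p - 1` (such as the
alternating sum of divisors), every `a ≥ 1` with `f a = f (a + 1)` (such as `a = 1`) and every
modulus `M`, there are arbitrarily large `n ≡ a` and odd shifts `k ≡ 1 (mod M)` with
`k ≤ n ^ (1 - η)`, `n` coprime to `n + k`, and `f n = f (n + k)`. -/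
theorem result :
    ∃ η : ℝ, 0 < η ∧ ∀ f : ArithmeticFunction ℤ, f.IsMultiplicative →
      (∀ p : ℕ, p.Prime → f p = (p : ℤ) - 1) →
      ∀ a : ℕ, 0 < a → f a = f (a + 1) → ∀ M : ℕ, 0 < M → ∀ N : ℕ,
        ∃ n k : ℕ, N < n ∧ 1 ≤ k ∧ (k : ℝ) ≤ (n : ℝ) ^ (1 - η) ∧ Odd k ∧
          n ≡ a [MOD M] ∧ k ≡ 1 [MOD M] ∧ Nat.Coprime n (n + k) ∧ f n = f (n + k) :=
  Pool.Agent.MP_35c637_nt.OS.main

end Pool.Agent.Results.MP_35c637_nt.OddShift
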