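import Mathlib
import Pool.Agent.MP_35c637_nt.Beta

set_option autoImplicit false

namespace Pool.Agent.Results.MP_35c637_nt.SparseSolutions

/-- For a multiplicative `f` with `f p = p - 1` and `0 < f (p ^ a) < p ^ a` (such as the
alternating sum of divisors and the totient), the number of `n ≤ x` with `f n = f (n + 1)` is at
most `x / L(x) ^ (3 / 2 - ε)` for large `x`, where `L(x) = exp (log x * logloglog x / loglog x)`. -/
theorem result :
    ∀ f : ArithmeticFunction ℤ, f.IsMultiplicative →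
      (∀ p : ℕ, p.Prime → f p = (p : ℤ) - 1) →
      (∀ p a : ℕ, p.Prime → 1 ≤ a → 0 < f (p ^ a) ∧ f (p ^ a) < (p : ℤ) ^ a) →
      ∀ ε : ℝ, 0 < ε → ∃ x₀ : ℕ, ∀ x : ℕ, x₀ ≤ x →
        (((Finset.Icc 1 x).filter fun n : ℕ => f n = f (n + 1)).card : ℝ) ≤
          (x : ℝ) / Real.exp ((3 / 2 - ε) * Real.log x * Real.log (Real.log (Real.log x)) /
            Real.log (Real.log x)) :=
  fun f hm hp hq _ hε => Pool.Agent.MP_35c637_nt.general f hm hp hq hε

end Pool.Agent.Results.MP_35c637_nt.SparseSolutions
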